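import Mathlib

set_option autoImplicit false

open Finset

namespace Pool.Agent.Results.MP_0959cd_co.HeavyCycleFails

/-- arcs of the one-sided example: words of length at most d, an inner word points to its
one-letter extensions, a word of full length points to its proper suffixes -/
def TE (d k : ℕ) (a b : {l : List (Fin k) // l.length ≤ d}) : Prop :=
  (a.1.length < d ∧ ∃ x, b.1 = x :: a.1) ∨ (a.1.length = d ∧ b.1.length < d ∧ b.1 <:+ a.1)

/-- weights of the one-sided example -/
noncomputable def Tp (d k : ℕ) (a _b : {l : List (Fin k) // l.length ≤ d}) : ℝ :=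
  if a.1.length < d then 1 / (k : ℝ) else 1 / (d : ℝ)

lemma Tp_nonneg (d k : ℕ) (a b : {l : List (Fin k) // l.length ≤ d}) : 0 ≤ Tp d k a b := by
  unfold Tp; split_ifs <;> positivity

lemma Tp_le_one (d k : ℕ) (hd : 0 < d) (hk : 0 < k) (a b : {l : List (Fin k) // l.length ≤ d}) :
    Tp d k a b ≤ 1 := by
  have h1 : (1:ℝ) ≤ d := by exact_mod_cast hd
  have h2 : (1:ℝ) ≤ k := by exact_mod_cast hk
  unfold Tp; split_ifs
  · rw [div_le_one (by linarith)]; exact h2
  · rw [div_le_one (by linarith)]; exact h1

instance (d k : ℕ) : Finite {l : List (Fin k) // l.length ≤ d} :=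
  (List.finite_length_le (Fin k) d).to_subtype

lemma Tout (d k : ℕ) (hd : 0 < d) (hk : 0 < k) [Fintype {l : List (Fin k) // l.length ≤ d}]
    [∀ a, DecidablePred (TE d k a)]
    (a : {l : List (Fin k) // l.length ≤ d}) :
    1 ≤ ∑ b ∈ univ.filter (TE d k a), Tp d k a b := by
  classical
  have h1 : (0:ℝ) < d := by exact_mod_cast hd
  have h2 : (0:ℝ) < k := by exact_mod_cast hk
  by_cases h : a.1.length < d
  · have key : ∑ b ∈ (univ : Finset (Fin k)).image
        (fun x => (⟨x :: a.1, by simp; omega⟩ : {l : List (Fin k) // l.length ≤ d})),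
        Tp d k a b = 1 := by
      rw [Finset.sum_image]
      · simp [Tp, h, h2.ne']
      · intro x _ y _ hxy
        simpa using hxy
    rw [← key]
    apply Finset.sum_le_sum_of_subset_of_nonneg
    · intro b hb
      simp only [mem_image, mem_univ, true_and] at hb
      obtain ⟨x, rfl⟩ := hb
      simp only [mem_filter, mem_univ, true_and]
      exact Or.inl ⟨h, x, rfl⟩
    · intro b _ _
      exact Tp_nonneg d k a b
  · have hl : a.1.length = d := le_antisymm a.2 (not_lt.mp h)
    have key : ∑ b ∈ (univ : Finset (Fin d)).image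
        (fun j => (⟨a.1.drop (d - j.1), by simp; omega⟩ : {l : List (Fin k) // l.length ≤ d})),
        Tp d k a b = 1 := by
      rw [Finset.sum_image]
      · simp [Tp, h, h1.ne']
      · intro x _ y _ hxy
        have h3 := congrArg (fun z : {l : List (Fin k) // l.length ≤ d} => z.1.length) hxy
        simp only [List.length_drop, hl] at h3
        apply Fin.ext
        omega
    rw [← key]
    apply Finset.sum_le_sum_of_subset_of_nonneg
    · intro b hb
      simp only [mem_image, mem_univ, true_and] at hb
      obtain ⟨x, rfl⟩ := hb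
      simp only [mem_filter, mem_univ, true_and]
      refine Or.inr ⟨hl, ?_, List.drop_suffix _ _⟩
      simp only [List.length_drop, hl]
      omega
    · intro b _ _
      exact Tp_nonneg d k a b

open scoped Fin.NatCast Fin.CommRing in
lemma Tcyc0 (d k m : ℕ) (hd : 0 < d) (c : Fin (m+2) → {l : List (Fin k) // l.length ≤ d})
    (hinj : Function.Injective c) (h : ∀ i, TE d k (c i) (c (i+1)))
    (hmin : ∀ i, (c 0).1.length ≤ (c i).1.length) :
    ∑ i, Tp d k (c i) (c (i+1)) ≤ d / k + 1 / d := by
  set t := (c 0).1.length with ht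
  have htd : t ≤ d := (c 0).2
  have claim : ∀ j : ℕ, t + j ≤ d → (c ((j : ℕ) : Fin (m+2))).1.length = t + j ∧
      ∀ i ≤ j, (c ((i : ℕ) : Fin (m+2))).1 <:+ (c ((j : ℕ) : Fin (m+2))).1 := by
    intro j
    induction j with
    | zero =>
      intro _
      refine ⟨by simp [ht], ?_⟩
      intro i hi
      obtain rfl : i = 0 := by omega
      exact List.suffix_refl _
    | succ j ih =>
      intro hj
      obtain ⟨ih1, ih2⟩ := ih (by omega)
      have h1 := h ((j : ℕ) : Fin (m+2))
      rcases h1 with ⟨_, x, hx⟩ | ⟨h2, _⟩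
      · have hx' : (c ((j + 1 : ℕ) : Fin (m+2))).1 = x :: (c ((j : ℕ) : Fin (m+2))).1 := by
          rw [Nat.cast_succ]; exact hx
        refine ⟨by rw [hx']; simp [ih1]; omega, ?_⟩
        intro i hi
        rcases Nat.lt_or_ge j i with h3 | h3
        · obtain rfl : i = j + 1 := by omega
          exact List.suffix_refl _
        · rw [hx']
          exact (ih2 i h3).trans (List.suffix_cons _ _)
      · omega
  set r := d - t with hr
  obtain ⟨hr1, hr2⟩ := claim r (by omega)
  have h1 := h ((r : ℕ) : Fin (m+2))
  have hmr : m + 2 = r + 1 := by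
    rcases h1 with ⟨h2, _⟩ | ⟨_, h2, h3⟩
    · omega
    · set s := (c (((r : ℕ) : Fin (m+2)) + 1)).1.length with hs
      have hts : t ≤ s := hmin _
      obtain ⟨h4, _⟩ := claim (s - t) (by omega)
      have h5 := hr2 (s - t) (by omega)
      have h6 : (c (((s - t : ℕ)) : Fin (m+2))).1 = (c (((r : ℕ) : Fin (m+2)) + 1)).1 := by
        have h7 := List.suffix_of_suffix_length_le h5 h3 (by omega)
        exact h7.eq_of_length (by omega)
      have h8 : (((s - t : ℕ)) : Fin (m+2)) = (((r + 1 : ℕ)) : Fin (m+2)) := by
        rw [Nat.cast_succ]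
        exact hinj (Subtype.ext h6)
      have h9 : (s - t) % (m+2) = (r+1) % (m+2) := by
        have h8' := congrArg Fin.val h8
        rw [Fin.val_natCast, Fin.val_natCast] at h8'
        exact h8'
      have h10 : m + 2 ∣ (r + 1) - (s - t) := (Nat.modEq_iff_dvd' (by omega)).mp h9
      have h11 : m + 2 ≤ (r + 1) - (s - t) := Nat.le_of_dvd (by omega) h10
      by_contra hne
      have h12 : m + 2 ≤ r := by omega
      obtain ⟨h13, _⟩ := claim (m+2) (by omega)
      have h14 : (((m + 2 : ℕ)) : Fin (m+2)) = 0 := by simp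
      rw [h14] at h13
      omega
  rw [Fin.sum_univ_castSucc]
  have hA : ∑ i : Fin (m+1), Tp d k (c i.castSucc) (c (i.castSucc + 1)) ≤ d / k := by
    have : ∀ i : Fin (m+1), Tp d k (c i.castSucc) (c (i.castSucc + 1)) = 1 / k := by
      intro i
      have hi := i.2
      obtain ⟨h13, _⟩ := claim i.1 (by omega)
      have h14 : ((i.1 : ℕ) : Fin (m+2)) = i.castSucc := by
        apply Fin.ext
        simp
      rw [h14] at h13
      unfold Tp
      rw [if_pos (by omega)]
    rw [Finset.sum_congr rfl (fun i _ => this i)]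
    simp only [sum_const, card_univ, Fintype.card_fin, nsmul_eq_mul]
    rw [mul_one_div]
    apply div_le_div_of_nonneg_right _ (by positivity)
    exact_mod_cast (by omega : m + 1 ≤ d)
  have hB : Tp d k (c (Fin.last (m+1))) (c (Fin.last (m+1) + 1)) ≤ 1 / d := by
    have h14 : ((r : ℕ) : Fin (m+2)) = Fin.last (m+1) := by
      apply Fin.ext
      simp [Fin.val_natCast]
      rw [Nat.mod_eq_of_lt] <;> omega
    rw [h14] at hr1
    unfold Tp
    rw [if_neg (by omega)]
  linarith

open scoped Fin.NatCast Fin.CommRing in
lemma Tcyc (d k m : ℕ) (hd : 0 < d) (c : Fin (m+2) → {l : List (Fin k) // l.length ≤ d})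
    (hinj : Function.Injective c) (h : ∀ i, TE d k (c i) (c (i+1))) :
    ∑ i, Tp d k (c i) (c (i+1)) ≤ d / k + 1 / d := by
  obtain ⟨i0, hi0⟩ := Finite.exists_min (fun i => (c i).1.length)
  have := Tcyc0 d k m hd (fun j => c (i0 + j)) (fun a b hab => by simpa using hinj hab)
    (fun i => by rw [← add_assoc]; exact h (i0 + i)) (fun i => by simpa using hi0 (i0 + i))
  refine le_trans (le_of_eq ?_) this
  rw [← Equiv.sum_comp (Equiv.addLeft i0)]
  simp [add_assoc]

open scoped Fin.NatCast Fin.CommRing in
lemma allRight (m : ℕ) (P : Fin (m+2) → Prop) (i0 : Fin (m+2)) (h0 : P i0)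
    (hs : ∀ i, P i → P (i+1)) : ∀ i, P i := by
  have hall : ∀ j : ℕ, P (i0 + (j : Fin (m+2))) := by
    intro j
    induction j with
    | zero => simpa using h0
    | succ j ih =>
      have := hs _ ih
      rw [Nat.cast_succ, ← add_assoc]; exact this
  intro i
  have h1 := hall (i - i0).val
  rw [Fin.cast_val_eq_self, add_sub_cancel] at h1
  exact h1

/-- **Every weighted-degree threshold fails.** For every positive real `ε` there is a finite
digraph (no loops, no parallel arcs) with arc weights in `[0,1]` in which every vertex has weighted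
out-degree at least one and weighted in-degree at least one, while every directed cycle has total
weight less than `ε`. -/
theorem result (ε : ℝ) (hε : 0 < ε) :
    ∃ (V : Type) (_ : Fintype V) (_ : DecidableEq V) (E : V → V → Prop)
      (_ : DecidableRel E) (p : V → V → ℝ),
      Nonempty V ∧
      (∀ u, ¬ E u u) ∧
      (∀ u v, E u v → 0 ≤ p u v ∧ p u v ≤ 1) ∧
      (∀ u, 1 ≤ ∑ v ∈ univ.filter (fun v => E u v), p u v) ∧
      (∀ u, 1 ≤ ∑ v ∈ univ.filter (fun v => E v u), p v u) ∧
      (∀ (m : ℕ) (c : Fin (m + 2) → V), Function.Injective c →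
        (∀ i, E (c i) (c (i + 1))) → ∑ i, p (c i) (c (i + 1)) < ε) := by
  classical
  obtain ⟨d', hd'⟩ := exists_nat_gt (2 / ε)
  set d := d' + 1 with hdd
  have hd : 0 < d := by omega
  have hdR : (0:ℝ) < d := by exact_mod_cast hd
  obtain ⟨k', hk'⟩ := exists_nat_gt (2 * d / ε)
  set k := k' + 1 with hkk
  have hk : 0 < k := by omega
  have hkR : (0:ℝ) < k := by exact_mod_cast hk
  have hsmall : (d:ℝ) / k + 1 / d < ε := by
    have h1 : 2 / ε < d := by rw [hdd]; push_cast; linarith
    have h2 : 2 * (d:ℝ) / ε < k := by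
      have : (k:ℝ) = k' + 1 := by rw [hkk]; push_cast; ring
      rw [this]; linarith
    rw [div_lt_iff₀ hε] at h1 h2
    have h3 : 1 / (d:ℝ) < ε / 2 := by
      rw [div_lt_div_iff₀ hdR (by norm_num)]; linarith
    have h4 : (d:ℝ) / k < ε / 2 := by
      rw [div_lt_div_iff₀ hkR (by norm_num)]; linarith
    linarith
  let W := {l : List (Fin k) // l.length ≤ d}
  let fW : Fintype W := Fintype.ofFinite W
  let E : W ⊕ W → W ⊕ W → Prop := fun a b =>
    match a, b with
    | .inl a, .inl b => TE d k b a
    | .inr a, .inr b => TE d k a b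
    | .inl a, .inr b => a = b
    | .inr _, .inl _ => False
  let p : W ⊕ W → W ⊕ W → ℝ := fun a b =>
    match a, b with
    | .inl a, .inl b => Tp d k b a
    | .inr a, .inr b => Tp d k a b
    | .inl _, .inr _ => 1
    | .inr _, .inl _ => 0
  have hirr : ∀ a : W, ¬ TE d k a a := by
    intro a ha
    rcases ha with ⟨_, x, hx⟩ | ⟨h1, h2, _⟩
    · have := congrArg List.length hx
      simp at this
    · omega
  have hlr : ∀ u : W, E (Sum.inl u) (Sum.inr u) := fun u => rfl
  have hp0 : ∀ u v, 0 ≤ p u v := by
    rintro (u | u) (v | v)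
    · exact Tp_nonneg _ _ _ _
    · exact zero_le_one
    · exact le_rfl
    · exact Tp_nonneg _ _ _ _
  have hp1 : ∀ u v, p u v ≤ 1 := by
    rintro (u | u) (v | v)
    · exact Tp_le_one _ _ hd hk _ _
    · exact le_rfl
    · exact zero_le_one
    · exact Tp_le_one _ _ hd hk _ _
  refine ⟨W ⊕ W, inferInstance, inferInstance, E, Classical.decRel E, p,
    ⟨Sum.inl ⟨[], by simp⟩⟩, ?_, ?_, ?_, ?_, ?_⟩
  · rintro (u | u)
    · exact hirr u
    · exact hirr u
  · intro u v _
    exact ⟨hp0 u v, hp1 u v⟩
  · rintro (u | u)
    · have h1 : p (Sum.inl u) (Sum.inr u) ≤ ∑ v ∈ univ.filter (fun v => E (Sum.inl u) v),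
          p (Sum.inl u) v :=
        Finset.single_le_sum (f := fun v => p (Sum.inl u) v) (fun i _ => hp0 _ _)
          (Finset.mem_filter.mpr ⟨Finset.mem_univ (Sum.inr u : W ⊕ W), hlr u⟩)
      exact h1
    · refine le_trans (Tout d k hd hk u) ?_
      have h2 : ∑ b ∈ (univ.filter (TE d k u)).map ⟨Sum.inr, Sum.inr_injective⟩,
          p (Sum.inr u) b = ∑ b ∈ univ.filter (TE d k u), Tp d k u b := by
        rw [Finset.sum_map]; rfl
      rw [← h2]
      apply Finset.sum_le_sum_of_subset_of_nonneg
      · intro b hb
        simp only [mem_map, mem_filter, mem_univ, true_and, Function.Embedding.coeFn_mk] at hb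
        obtain ⟨x, hx, rfl⟩ := hb
        simp only [mem_filter, mem_univ, true_and]
        exact hx
      · intro i _ _
        exact hp0 _ _
  · rintro (u | u)
    · refine le_trans (Tout d k hd hk u) ?_
      have h2 : ∑ b ∈ (univ.filter (TE d k u)).map ⟨Sum.inl, Sum.inl_injective⟩,
          p b (Sum.inl u) = ∑ b ∈ univ.filter (TE d k u), Tp d k u b := by
        rw [Finset.sum_map]; rfl
      rw [← h2]
      apply Finset.sum_le_sum_of_subset_of_nonneg
      · intro b hb
        simp only [mem_map, mem_filter, mem_univ, true_and, Function.Embedding.coeFn_mk] at hb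
        obtain ⟨x, hx, rfl⟩ := hb
        simp only [mem_filter, mem_univ, true_and]
        exact hx
      · intro i _ _
        exact hp0 _ _
    · have h1 : p (Sum.inl u) (Sum.inr u) ≤ ∑ v ∈ univ.filter (fun v => E v (Sum.inr u)),
          p v (Sum.inr u) :=
        Finset.single_le_sum (f := fun v => p v (Sum.inr u)) (fun i _ => hp0 _ _)
          (Finset.mem_filter.mpr ⟨Finset.mem_univ (Sum.inl u : W ⊕ W), hlr u⟩)
      exact h1
  · intro m c hinj hc
    refine lt_of_le_of_lt ?_ hsmall
    by_cases hR : ∃ i, (c i).isRight = true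
    · -- all vertices on the right
      obtain ⟨i0, hi0⟩ := hR
      have hstep : ∀ i, (c i).isRight = true → (c (i+1)).isRight = true := by
        intro i hi
        have h1 := hc i
        rcases h2 : c i with a | a
        · rw [h2] at hi; simp at hi
        · rcases h3 : c (i+1) with b | b
          · rw [h2, h3] at h1; exact h1.elim
          · rfl
      have hall := allRight m (fun i => (c i).isRight = true) i0 hi0 hstep
      have hall' : ∀ i, ∃ w : W, c i = Sum.inr w := by
        intro i
        have h1 := hall i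
        rcases h2 : c i with a | a
        · rw [h2] at h1; simp at h1
        · exact ⟨a, rfl⟩
      choose w hw using hall'
      have hwinj : Function.Injective w := by
        intro a b hab
        apply hinj
        rw [hw a, hw b, hab]
      have hwE : ∀ i, TE d k (w i) (w (i+1)) := by
        intro i
        have h1 := hc i
        rw [hw i, hw (i+1)] at h1
        exact h1
      have := Tcyc d k m hd w hwinj hwE
      refine le_trans (le_of_eq ?_) this
      apply Finset.sum_congr rfl
      intro i _
      rw [hw i, hw (i+1)]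
    · push Not at hR
      have hall' : ∀ i, ∃ w : W, c i = Sum.inl w := by
        intro i
        rcases h2 : c i with a | a
        · exact ⟨a, rfl⟩
        · exfalso
          apply hR i
          rw [h2]; rfl
      choose w hw using hall'
      have hwinj : Function.Injective (fun i => w (-i)) := by
        intro a b hab
        have h1 : c (-a) = c (-b) := by
          rw [hw (-a), hw (-b)]; exact congrArg _ hab
        exact neg_injective (hinj h1)
      have hwE : ∀ i, TE d k (w (-i)) (w (-(i+1))) := by
        intro i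
        have h1 := hc (-(i+1))
        rw [hw, hw] at h1
        have h2 : -(i+1) + 1 = -i := by rw [neg_add, neg_add_cancel_right]
        rw [h2] at h1
        exact h1
      have := Tcyc d k m hd (fun i => w (-i)) hwinj hwE
      refine le_trans (le_of_eq ?_) this
      have h3 : ∀ i, p (c i) (c (i+1)) = Tp d k (w (i+1)) (w i) := by
        intro i
        rw [hw i, hw (i+1)]
      rw [Finset.sum_congr rfl (fun i _ => h3 i)]
      rw [← Equiv.sum_comp ((Equiv.addRight (1 : Fin (m+2))).trans (Equiv.neg _))
        (fun i => Tp d k (w (i+1)) (w i))]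
      apply Finset.sum_congr rfl
      intro i _
      simp only [Equiv.trans_apply, Equiv.coe_addRight, Equiv.neg_apply]
      have h2 : -(i+1) + 1 = -i := by rw [neg_add, neg_add_cancel_right]
      rw [h2]

end Pool.Agent.Results.MP_0959cd_co.HeavyCycleFails
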